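import Pool.Agent.Q28.BP.Both

/-!
# The original products of Birch and Swinnerton-Dyer of almost all fibres of an elliptic surface

For an elliptic curve `E` the product of the problem is `P(x) = ∏_{p ≤ x} N_p / p`, `N_p = #E(𝔽_p)`.  Let
`E_t : y² = x³ + a(t) x + b(t)`, `a, b ∈ ℤ[t]`, be any one-parameter family.  We show that the products of
almost all the fibres have the same growth, on the whole range `X₀ ≤ x ≤ T^(1/10)` at once:

  `log P_t(x) = S(x) + O((log log x)^(5/6))` for all but `η T` of the integers `0 ≤ t < T`,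

where `S(x) = ∑_{p ≤ x} (1/p) ∑_{t mod p} ((1 - a_p(t)) / p - a_p(t)² / (2 p²))` (good fibres only) is a sum
of the type considered by Nagao, Rosen and Silverman: conjecturally, and in many cases provably,
`S(x) = (r + 1/2) log log x + O(1)`, `r` the rank of the family over `ℚ(t)`, if `a`, `b` are such that the
mean of `a_p(t)²` is `p + O(√p)`.  So the products of almost all fibres grow like `(log x)^(r + 1/2)` until
`x = T^(1/10)`, half-way between the two ranks `r`, `r + 1` which are expected for almost all fibres, and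
the asymptotic formula of the problem cannot begin to hold earlier for almost all of them.

The constants are uniform: `X₀` depends on `η` only, neither on the degrees nor on the coefficients of `a`
and `b`.  The theorem is unconditional; modularity is not used.  See `Pool.Agent.Q28.BP` for the proof
(fourth moments over `t` uniformly in all intervals of primes, and a maximal inequality).
-/

set_option autoImplicit false

namespace Pool.Agent.Results.MP_ad1693_nt.AlmostAllFibres

open Polynomial
open scoped Classical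

/-- The number of points, with the point at infinity, of `y² = x³ + a x + b` modulo `p`. -/
noncomputable def points (a b : ℤ) (p : ℕ) : ℕ :=
  Nat.card {q : ZMod p × ZMod p // q.2 ^ 2 = q.1 ^ 3 + (a : ZMod p) * q.1 + (b : ZMod p)} + 1

/-- `p` is a prime which does not divide `2 Δ`, `Δ = -4 a³ - 27 b²`. -/
def Good (a b : ℤ) (p : ℕ) : Prop := p.Prime ∧ ¬ ((p : ℤ) ∣ 2 * (-4 * a ^ 3 - 27 * b ^ 2))

/-- The product of `N_p / p` over the good primes `p ≤ x`. -/
noncomputable def product (a b : ℤ) (x : ℕ) : ℝ :=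
  ∏ p ∈ (Finset.range (x + 1)).filter (Good a b), ((points a b p : ℝ) / p)

/-- `a_p = p + 1 - N_p` -/
noncomputable def trace (a b : ℤ) (p : ℕ) : ℝ := (p : ℝ) + 1 - points a b p

/-- The sum `S(x)`: the sum over the primes `p ≤ x` of the mean value over `t` modulo `p` of
`(1 - a_p(t)) / p - a_p(t)² / (2 p²)`, which is put to be `0` for the bad `t`. -/
noncomputable def meanSum (a b : ℤ[X]) (x : ℕ) : ℝ :=
  ∑ p ∈ (Finset.range (x + 1)).filter Nat.Prime,
    (∑ t ∈ Finset.range p, if Good (a.eval (t : ℤ)) (b.eval (t : ℤ)) p then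
      (1 - trace (a.eval (t : ℤ)) (b.eval (t : ℤ)) p) / p -
        trace (a.eval (t : ℤ)) (b.eval (t : ℤ)) p ^ 2 / (2 * (p : ℝ) ^ 2) else 0) / p

/-- **The products of almost all fibres.**  For every `η > 0` there is `X₀` such that for all polynomials
`a, b ∈ ℤ[t]` and all `T` the following holds for all integers `0 ≤ t < T` with at most `η T` exceptions:
for all `x ≥ X₀` with `x^10 ≤ T` the product `P_t(x)` of `y² = x³ + a(t) x + b(t)` satisfies
`|log P_t(x) - S(x)| ≤ 2 (log log x)^(5/6)`. -/
theorem result (η : ℝ) (hη : 0 < η) : ∃ X₀ : ℕ, ∀ (a b : ℤ[X]) (T : ℕ),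
    ∃ 𝓔 : Finset ℕ, (𝓔.card : ℝ) ≤ η * T ∧ ∀ t : ℕ, t < T → t ∉ 𝓔 →
      ∀ x : ℕ, X₀ ≤ x → x ^ 10 ≤ T →
        |Real.log (product (a.eval (t : ℤ)) (b.eval (t : ℤ)) x) - meanSum a b x| ≤
          2 * Real.log (Real.log x) ^ (5 / 6 : ℝ) := by
  obtain ⟨X₀, _, H⟩ := Pool.Agent.Q28.BP.nagao η hη
  refine ⟨X₀, fun a b T => ?_⟩
  obtain ⟨E, _, hE, H⟩ := H a b T (Pool.Agent.Q28.BP.rt T) (Pool.Agent.Q28.BP.rt_le T)
  refine ⟨E, hE, fun t ht hne x hx hxT => ?_⟩
  have h1 := H t (Finset.mem_range.2 ht) hne x hx (Pool.Agent.Q28.BP.le_rt hxT)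
  obtain ⟨_, h2⟩ := Pool.Agent.Q28.BP.log_prod (a.eval (t : ℤ)) (b.eval (t : ℤ)) x
  have e1 : product (a.eval (t : ℤ)) (b.eval (t : ℤ)) x =
      ∏ p ∈ (Finset.range (x + 1)).filter (Pool.Agent.W263.BSD.GoodPrime (a.eval (t : ℤ)) (b.eval (t : ℤ))),
        (((Pool.Agent.W263.BSD.pointCount (a.eval (t : ℤ)) (b.eval (t : ℤ)) p : ℝ) + 1) / p) := by
    unfold product
    refine Finset.prod_congr rfl fun p _ => ?_
    unfold points Pool.Agent.W263.BSD.pointCount
    push_cast
    rfl
  have e2 : meanSum a b x = ∑ p ∈ (Finset.range (x + 1)).filter Nat.Prime, Pool.Agent.Q28.BP.nu a b p := by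
    unfold meanSum
    refine Finset.sum_congr rfl fun p _ => ?_
    unfold Pool.Agent.Q28.BP.nu
    congr 1
    refine Finset.sum_congr rfl fun j _ => ?_
    have e3 : trace (a.eval (j : ℤ)) (b.eval (j : ℤ)) p =
        (p : ℝ) - Pool.Agent.W263.BSD.pointCount (a.eval (j : ℤ)) (b.eval (j : ℤ)) p := by
      unfold trace points Pool.Agent.W263.BSD.pointCount
      push_cast
      ring
    rw [e3]
    rfl
  rw [e1, h2, e2]
  exact h1

end Pool.Agent.Results.MP_ad1693_nt.AlmostAllFibres
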