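import Pool.Agent.Q235.FE.Fam

/-!
# The original products of Birch and Swinnerton-Dyer of the fibres over integers with few changed digits

For an elliptic curve `E` the product of the problem is `P(x) = ∏_{p ≤ x} N_p / p`, `N_p = #E(𝔽_p)`.  Let
`E_t : y² = X³ + a(t) X + b(t)`, `a, b ∈ ℤ[t_l : l ∈ L]`, be any family with any number of parameters.  Take for every
parameter an ARBITRARY integer `N l` with at most `K l` digits (in a fixed base), and change `r l ≤ K l / 2` of its digits,
to prescribed digits different from the old ones, at freely chosen positions.  We show that for all but a proportion `η`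
of the choices the products of the fibre `E_m` over the tuple `m` obtained have the growth which is given by the mean
values over the fibres modulo the primes,

  `|log P_m(x) - S(x)| ≤ 3 (log log x)^(5/6)` for ALL `x` with `X₀ ≤ x ≤ exp (c √(r l))`, `l ∈ L`,

`S(x) = ∑_{p ≤ x} (mean over t modulo p of (1 - a_p(t)) / p - a_p(t)² / (2 p²))` (good fibres only).  `X₀` depends only on
the base, the number of the parameters and `η`, and `c` only on the base and the number of the parameters; neither depends
on the polynomials, the integers, their lengths or the prescribed digits, and `r l` need not tend to infinity with any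
speed compared with `K l`.

The proof (`Pool.Agent.Q235.FE`): exponential sums over the changes of `r` digits are smaller than any power of `x` for all
denominators up to `x⁴`, `log x ≤ c √r`; hence all correlations of four local factors; and a maximal inequality
(`Pool.Agent.Q28.BP`).
-/

set_option autoImplicit false

namespace Pool.Agent.Results.MP_ad1693_nt.FewDigitFibres

open Finset
open Pool.Agent.Q235.FD (Setting exceptions)
open scoped Classical

/-- The number of points, with the point at infinity, of `y² = x³ + a x + b` modulo `p`. -/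
noncomputable def points (a b : ℤ) (p : ℕ) : ℕ :=
  Nat.card {q : ZMod p × ZMod p // q.2 ^ 2 = q.1 ^ 3 + (a : ZMod p) * q.1 + (b : ZMod p)} + 1

/-- `p` is a prime which does not divide `2 Δ`, `Δ = -4 a³ - 27 b²`. -/
def Good (a b : ℤ) (p : ℕ) : Prop := p.Prime ∧ ¬ ((p : ℤ) ∣ 2 * (-4 * a ^ 3 - 27 * b ^ 2))

/-- The product of `N_p / p` over the good primes `p ≤ x`. -/
noncomputable def product (a b : ℤ) (x : ℕ) : ℝ :=
  ∏ p ∈ (range (x + 1)).filter (Good a b), ((points a b p : ℝ) / p)

/-- `a_p = p + 1 - N_p` -/
noncomputable def trace (a b : ℤ) (p : ℕ) : ℝ := (p : ℝ) + 1 - points a b p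

/-- The value of the polynomial at the tuple `m`. -/
noncomputable def value {L : Type} (a : MvPolynomial L ℤ) (m : L → ℕ) : ℤ := MvPolynomial.eval (fun l => (m l : ℤ)) a

/-- The sum `S(x)`: the sum over the primes `p ≤ x` of the mean value over the tuples of residues `t` modulo `p` of
`(1 - a_p(t)) / p - a_p(t)² / (2 p²)`, which is put to be `0` for the bad `t`. -/
noncomputable def meanSum {L : Type} [Fintype L] (a b : MvPolynomial L ℤ) (x : ℕ) : ℝ :=
  ∑ p ∈ (range (x + 1)).filter Nat.Prime,
    (∑ t ∈ Fintype.piFinset (fun _ : L => range p), if Good (value a t) (value b t) p then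
      (1 - trace (value a t) (value b t) p) / p - trace (value a t) (value b t) p ^ 2 / (2 * (p : ℝ) ^ 2) else 0) /
        (p : ℝ) ^ Fintype.card L

/-- **The products of almost all fibres over integers with few changed digits.**  Let `L` be a finite nonempty set and
`β ≥ 2` a base.  There is `c > 0` such that for every `η > 0` there is `X₀` such that for all polynomials `a`, `b` with
integer coefficients in the variables `t_l`, `l ∈ L`, all integers `N l` with at most `K l` digits in base `β`, all
`r l ≤ K l / 2` and all prescribed new digits `f l` the following holds for all choices of `r l` positions for all `l`,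
except for a proportion of at most `η` of the choices: for the tuple `m` obtained and all `x ≥ X₀` with
`log x ≤ c √(r l)` for all `l` the product `P(x)` of the curve `y² = X³ + a(m) X + b(m)` satisfies
`|log P(x) - S(x)| ≤ 3 (log log x)^(5/6)`. -/
theorem result (L : Type) [Fintype L] [Nonempty L] (β : ℕ) (hβ : 2 ≤ β) : ∃ c : ℝ, 0 < c ∧ ∀ η : ℝ, 0 < η →
    ∃ X₀ : ℕ, ∀ (a b : MvPolynomial L ℤ) (K r N : L → ℕ) (f : L → ℕ → ℕ), Setting β K r N f →
      (exceptions β K r N f (fun m => ∀ x : ℕ, X₀ ≤ x → (∀ l, Real.log x ≤ c * Real.sqrt (r l)) →
        |Real.log (product (value a m) (value b m) x) - meanSum a b x| ≤ 3 * Real.log (Real.log x) ^ (5 / 6 : ℝ)) : ℝ) ≤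
          η * ∏ l, ((K l).choose (r l) : ℝ) := by
  obtain ⟨c, hc, H⟩ := Pool.Agent.Q235.FE.curves_all L β hβ
  refine ⟨c, hc, fun η hη => ?_⟩
  obtain ⟨X₀, _, H⟩ := H η hη
  refine ⟨X₀, fun a b K r N f hs => ?_⟩
  have h1 := H (value a) (value b) (Pool.Agent.Q235.FE.compat_poly a) (Pool.Agent.Q235.FE.compat_poly b) K r N f hs
  have e1 : ∀ (u v : ℤ) (x : ℕ), Real.log (product u v x) =
      ∑ p ∈ (range (x + 1)).filter Nat.Prime, Pool.Agent.Q28.BP.lg u v p := by
    intro u v x
    have h2 : product u v x = ∏ p ∈ (range (x + 1)).filter (Pool.Agent.W263.BSD.GoodPrime u v),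
        (((Pool.Agent.W263.BSD.pointCount u v p : ℝ) + 1) / p) := by
      unfold product
      refine prod_congr rfl fun p _ => ?_
      unfold points Pool.Agent.W263.BSD.pointCount
      push_cast
      rfl
    rw [h2]
    exact (Pool.Agent.Q28.BP.log_prod u v x).2
  have e2 : ∀ x : ℕ, meanSum a b x = ∑ p ∈ (range (x + 1)).filter Nat.Prime,
      Pool.Agent.Q235.FD.avg p (fun n => Pool.Agent.Q28.BP.nuf (value a n) (value b n) p) := by
    intro x
    unfold meanSum Pool.Agent.Q235.FD.avg
    refine sum_congr rfl fun p _ => ?_
    congr 1
    refine sum_congr rfl fun t _ => ?_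
    have e3 : trace (value a t) (value b t) p = (p : ℝ) - Pool.Agent.W263.BSD.pointCount (value a t) (value b t) p := by
      unfold trace points Pool.Agent.W263.BSD.pointCount
      push_cast
      ring
    rw [e3]
    rfl
  simp only [e1, e2]
  exact h1

end Pool.Agent.Results.MP_ad1693_nt.FewDigitFibres
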