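import Pool.Agent.W263.BSD.Lead8
import Pool.Agent.W263.BSD.Lead7
import Pool.Agent.TH941.Newform

/-!
# The original asymptotic of Birch and Swinnerton-Dyer is equivalent to a one-sided condition

Let `E : y² = x³ + a x + b` be an elliptic curve over `ℚ`, `a, b ∈ ℤ`, `N_p = #E(𝔽_p)`, and
`P(x) = ∏_{p ≤ x, p ∤ 2Δ} N_p / p` the original product of Birch and Swinnerton-Dyer (the finitely many
primes left out only change the constant).  Let `F` be the entire continuation of the incomplete
`L`-series, `r = ord_{s=1} F`, and `T = √2 e^{rγ} r! / |F^{(r)}(1)|`.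

The question is whether `P(x) ∼ C (log x)^r` for some constant `C`.  By Goldfeld (1982) then `C = T` and the
Riemann hypothesis holds for `E`; by Kuo-Murty and Conrad (2005) the asymptotic is equivalent to a
two-sided estimate `o(x log x)` for a sum over prime powers, slightly stronger than the Riemann hypothesis.
Here it is shown, for every `E`, that the asymptotic is EQUIVALENT to the one-sided condition of slow
oscillation for the product itself:

for every `ε > 0` there is a `δ > 0` with `P(y) ≤ (1 + ε) P(x)` for all large `x` and all `y ∈ [x, x^(1+δ)]`,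

and, if `F` has no REAL zeros `> 1`, also to the opposite one-sided condition `P(x) ≤ (1 + ε) P(y)`.
In the same way the order of magnitude `P(x) ≍ (log x)^r` is equivalent to the one-sided doubling
condition `P(y) ≤ K P(x)` for `x ≤ y ≤ x²`, and to `P(x) ≤ K P(y)` together with the absence of real
zeros `> 1`.  The conditions on the right contain neither the order `r` nor the leading coefficient,
and no hypothesis on the complex zeros.

Proof.  Let `A(u)` be the sum over the prime powers `≤ e^u`, so that its Laplace transform is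
`log F(1 + w)/w` up to elementary terms.  The one-sided condition bounds `A` from above by `O(log u)`, and Landau's
theorem (with the sign of the contribution of a real zero) continues the Laplace transform to
`Re w > 0`; the behaviour as `w → 0+` and a Tauberian theorem for slowly decreasing functions give the
limit.  The passage from prime powers to primes uses Hasse's bound and the theorem of
Rankin and Selberg, which is derived from the newform.
Everything is proved in the imported files (`Pool.Agent.W263.BSD`, `Pool.Agent.TH941`).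
-/

set_option autoImplicit false

namespace Pool.Agent.Results.MP_ad1693_nt.OneSidedOscillation

open Filter Topology Classical CongruenceSubgroup UpperHalfPlane
open scoped MatrixGroups

/-- `N_p`: the number of points of `y² = x³ + a x + b` modulo `p`, with the point at infinity. -/
noncomputable def numPoints (a b : ℤ) (p : ℕ) : ℕ :=
  Nat.card {q : ZMod p × ZMod p // q.2 ^ 2 = q.1 ^ 3 + (a : ZMod p) * q.1 + (b : ZMod p)} + 1

/-- `p` is a prime that does not divide `2 Δ`, where `Δ = -4 a³ - 27 b²`. -/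
def Good (a b : ℤ) (p : ℕ) : Prop :=
  p.Prime ∧ ¬ ((p : ℤ) ∣ 2 * (-4 * a ^ 3 - 27 * b ^ 2))

/-- The original Birch and Swinnerton-Dyer product `P(x) = ∏_{p ≤ x, p ∤ 2Δ} N_p / p`. -/
noncomputable def P (a b : ℤ) (x : ℝ) : ℝ :=
  ∏ p ∈ (Finset.range (⌊x⌋₊ + 1)).filter (Good a b), ((numPoints a b p : ℝ) / p)

/-- `F` is an entire function which for `Re s > 3/2` is the incomplete `L`-series
`∏_{p ∤ 2Δ} (1 - a_p p^{-s} + p^{1-2s})⁻¹`, `a_p = p + 1 - N_p`, of `y² = x³ + a x + b`. -/
def IsLSeries (a b : ℤ) (F : ℂ → ℂ) : Prop :=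
  Differentiable ℂ F ∧ ∀ s : ℂ, (3 : ℝ) / 2 < s.re →
    HasProd (fun p : ℕ => if Good a b p then
      (1 - ((p : ℂ) + 1 - (numPoints a b p : ℂ)) * (p : ℂ) ^ (-s) + (p : ℂ) ^ (1 - 2 * s))⁻¹ else 1)
      (F s)

/-- The `n`-th Fourier coefficient of `f`. -/
noncomputable def coef {N : ℕ} (f : CuspForm (Gamma0 N : Subgroup (GL (Fin 2) ℝ)) 2) (n : ℕ) : ℂ :=
  (qExpansion 1 f).coeff n

/-- `f ∈ S_2(Γ₀(N))` is the newform of the elliptic curve `E : y² = x³ + a x + b` of conductor `N`: the
Fourier coefficients `c(n)` of `f` are real with `c(1) = 1`, they satisfy the Hecke relations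
`c(mn) = c(m) c(n)` for coprime `m`, `n` and `c(p^(j+2)) = c(p) c(p^(j+1)) - p c(p^j)` (without the last
term if `p ∣ N`), `c(p) = a_p = p + 1 - N_p` for all primes `p ∤ 2Δ`, `|c(p)| ≤ 2 √p` for all
`p ∤ N` (Hasse) and `c(p) = 0, 1, -1` for `p ∣ N`. -/
structure IsNewformOf (a b : ℤ) (N : ℕ) (f : CuspForm (Gamma0 N : Subgroup (GL (Fin 2) ℝ)) 2) :
    Prop where
  one : coef f 1 = 1
  real : ∀ n, (coef f n).im = 0
  mul : ∀ m n : ℕ, Nat.Coprime m n → coef f (m * n) = coef f m * coef f n
  pow : ∀ p j : ℕ, p.Prime → coef f (p ^ (j + 2)) = coef f p * coef f (p ^ (j + 1)) -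
      (if p ∣ N then 0 else (p : ℂ) * coef f (p ^ j))
  points : ∀ p : ℕ, Good a b p → coef f p = (p : ℂ) + 1 - (numPoints a b p : ℂ)
  good : ∀ p : ℕ, p.Prime → ¬ p ∣ N → ‖coef f p‖ ≤ 2 * Real.sqrt p
  bad : ∀ p : ℕ, p.Prime → p ∣ N → coef f p = 0 ∨ coef f p = 1 ∨ coef f p = -1

/-- Goldfeld's constant `T = √2 e^{rγ} r! / |F^{(r)}(1)|` -/
noncomputable def T (F : ℂ → ℂ) (r : ℕ) : ℝ :=
  √2 * Real.exp (r * Real.eulerMascheroniConstant) * r.factorial / ‖iteratedDeriv r F 1‖

/-- `F` has no real zeros `> 1`. -/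
def NoRealZeros (F : ℂ → ℂ) : Prop := ∀ s : ℝ, 1 < s → F s ≠ 0

/-! ### translation -/

open Pool.Agent.W263.BSD (bsdProduct bsdStar leadAbs order_tfae lead_tfae product_iff_star rsSum)

theorem P_eq (a b : ℤ) : P a b = bsdProduct a b := by
  funext x
  unfold P bsdProduct
  refine Finset.prod_congr rfl fun p _ => ?_
  congr 1
  unfold numPoints
  push_cast
  rfl

theorem ls_eq {a b : ℤ} {F : ℂ → ℂ} (h : IsLSeries a b F) : Pool.Agent.W263.BSD.IsLSeries a b F := by
  refine ⟨h.1, fun s hs => ?_⟩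
  refine (congrArg (fun g => HasProd g (F s)) (funext fun p => ?_)).mp (h.2 s hs)
  unfold numPoints
  push_cast
  rw [add_sub_add_right_eq_sub]
  rfl

theorem hecke {a b : ℤ} {N : ℕ} {f : CuspForm (Gamma0 N : Subgroup (GL (Fin 2) ℝ)) 2}
    (hf : IsNewformOf a b N f) : Pool.Agent.TH941.Hecke f where
  one := hf.one
  real := hf.real
  mul := hf.mul
  pow := hf.pow
  good := hf.good
  bad := fun p hp h => by
    rcases hf.bad p hp h with h1 | h1 | h1
    · have h2 : ‖coef f p‖ ≤ 1 := by rw [h1]; simp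
      exact h2
    · have h2 : ‖coef f p‖ ≤ 1 := by rw [h1]; simp
      exact h2
    · have h2 : ‖coef f p‖ ≤ 1 := by rw [h1]; simp
      exact h2

/-- **The original asymptotic and one-sided slow oscillation.** -/
theorem result (a b : ℤ) (hΔ : 4 * a ^ 3 + 27 * b ^ 2 ≠ 0) (F : ℂ → ℂ) (hF : IsLSeries a b F)
    (N : ℕ) [NeZero N] (f : CuspForm (Gamma0 N : Subgroup (GL (Fin 2) ℝ)) 2)
    (hf : IsNewformOf a b N f) :
    ∃ r : ℕ, analyticOrderAt F 1 = r ∧ iteratedDeriv r F 1 ≠ 0 ∧
      List.TFAE [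
        ∃ C : ℝ, C ≠ 0 ∧ Tendsto (fun x : ℝ => P a b x / (C * (Real.log x) ^ r)) atTop (𝓝 1),
        Tendsto (fun x : ℝ => P a b x / (Real.log x) ^ r) atTop (𝓝 (T F r)),
        ∀ ε : ℝ, 0 < ε → ∃ δ : ℝ, 0 < δ ∧ ∀ᶠ x : ℝ in atTop, ∀ y, x ≤ y → y ≤ x ^ (1 + δ) →
          P a b y ≤ (1 + ε) * P a b x,
        NoRealZeros F ∧ ∀ ε : ℝ, 0 < ε → ∃ δ : ℝ, 0 < δ ∧ ∀ᶠ x : ℝ in atTop, ∀ y, x ≤ y →
          y ≤ x ^ (1 + δ) → P a b x ≤ (1 + ε) * P a b y] ∧
      List.TFAE [
        ∃ c C : ℝ, 0 < c ∧ ∀ᶠ x : ℝ in atTop,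
          c * (Real.log x) ^ r ≤ P a b x ∧ P a b x ≤ C * (Real.log x) ^ r,
        ∃ K : ℝ, ∀ᶠ x : ℝ in atTop, ∀ y, x ≤ y → y ≤ x ^ 2 → P a b y ≤ K * P a b x,
        NoRealZeros F ∧ ∃ K : ℝ, ∀ᶠ x : ℝ in atTop, ∀ y, x ≤ y → y ≤ x ^ 2 →
          P a b x ≤ K * P a b y] := by
  have hF' := ls_eq hF
  obtain ⟨r, hr⟩ := Pool.Agent.W263.BSD.order_finite hF'
  have hrs : Tendsto (rsSum a b) atTop (𝓝 0) := by
    refine (hecke hf).rsSum_tendsto hΔ fun p hp => ?_
    have h1 := hf.points p hp
    unfold numPoints at h1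
    push_cast at h1
    rw [add_sub_add_right_eq_sub] at h1
    exact h1
  have hpos : 0 < leadAbs F r := (Pool.Agent.W263.BSD.lead_limit hF'.1 hr).1
  have hne : iteratedDeriv r F 1 ≠ 0 := by
    intro h
    unfold leadAbs at hpos
    rw [h, norm_zero, zero_div] at hpos
    exact lt_irrefl _ hpos
  have hnn : 0 < ‖iteratedDeriv r F 1‖ := norm_pos_iff.2 hne
  have hT : T F r = √2 * (Real.exp (r * Real.eulerMascheroniConstant) / leadAbs F r) := by
    unfold T leadAbs
    have : (0 : ℝ) < r.factorial := by exact_mod_cast r.factorial_pos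
    field_simp
  refine ⟨r, hr, hne, ?_, ?_⟩
  · have h1 := lead_tfae hF' hr
    rw [P_eq, hT]
    have key : (∃ C : ℝ, 0 < C ∧ Tendsto (fun x : ℝ => bsdStar a b x / (Real.log x) ^ r) atTop
        (𝓝 C)) → ∀ ε : ℝ, 0 < ε → ∃ δ : ℝ, 0 < δ ∧ ∀ᶠ x : ℝ in atTop, ∀ y, x ≤ y →
          y ≤ x ^ (1 + δ) → bsdProduct a b y ≤ (1 + ε) * bsdProduct a b x := (h1.out 1 2).1
    have s2 : (0 : ℝ) < √2 := Real.sqrt_pos.2 two_pos
    tfae_have 2 → 1 := by
      intro h
      refine ⟨√2 * (Real.exp (r * Real.eulerMascheroniConstant) / leadAbs F r), by positivity, ?_⟩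
      have h2 := h.div_const (√2 * (Real.exp (r * Real.eulerMascheroniConstant) / leadAbs F r))
      rw [div_self (by positivity)] at h2
      refine h2.congr fun x => ?_
      rw [div_div, mul_comm (Real.log x ^ r)]
    tfae_have 1 → 3 := by
      rintro ⟨C, hC, h⟩
      have hCpos : 0 < C := by
        have h2 := h.eventually (lt_mem_nhds (show (0 : ℝ) < 1 by norm_num))
        obtain ⟨x, h3, h4⟩ := (h2.and (Real.tendsto_log_atTop.eventually_gt_atTop 0)).exists
        have h5 : 0 < bsdProduct a b x := Pool.Agent.W263.BSD.bsdProduct_pos x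
        by_contra h6
        have h7 : C < 0 := lt_of_le_of_ne (not_lt.1 h6) hC
        have h8 : bsdProduct a b x / (C * Real.log x ^ r) < 0 := by
          refine div_neg_of_pos_of_neg h5 (mul_neg_of_neg_of_pos h7 (pow_pos h4 r))
        linarith
      have h2 : Tendsto (fun x : ℝ => bsdProduct a b x / (Real.log x) ^ r) atTop
          (𝓝 (√2 * (C / √2))) := by
        have h3 := h.const_mul C
        rw [mul_one] at h3
        rw [mul_div_cancel₀ _ s2.ne']
        refine h3.congr fun x => ?_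
        rw [mul_div_assoc', mul_div_mul_left _ _ hC]
      have h3 := (product_iff_star hΔ hrs r (C / √2)).1 h2
      exact key ⟨C / √2, by positivity, h3⟩
    tfae_have 3 → 2 := by
      intro h
      exact (product_iff_star hΔ hrs r _).2 ((h1.out 2 0).1 h)
    tfae_have 3 ↔ 4 := h1.out 2 3
    tfae_finish
  · rw [P_eq]
    exact order_tfae hF' hr

end Pool.Agent.Results.MP_ad1693_nt.OneSidedOscillation
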